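import Pool.Agent.H447R4.PA.FinX
import Pool.Agent.H447R4.PA.Lam

set_option autoImplicit false

/-!
MP_82fd4a_nt (Andrica's conjecture): the parity analogue, explicit.  The integers with an odd number
of prime factors (and likewise those with an even number) satisfy Andrica's inequality from some
explicit point on, and in fact every interval (X, X + 2 sqrt X] contains at least a constant times
X^(1/48) of both kinds.
-/

namespace Pool.Agent.Results.MP_82fd4a_nt.ParityAndrica

open Pool.Agent.H447R4.PA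

/-- q j i: the i-th positive integer m (counted from i = 0, in increasing order) such that the
number Ω(m) of prime factors of m, counted with multiplicity, is congruent to j mod 2. -/
noncomputable def q (j i : ℕ) : ℕ :=
  Nat.nth (fun m => 0 < m ∧ ArithmeticFunction.cardFactors m % 2 = j) i

theorem result :
    (∀ f : ℕ → ℤ, CM f → ∀ X K : ℕ, 10 ^ 324 * (K + 1) ^ 48 ≤ X → ∀ c : ℤ, (c = 1 ∨ c = -1) →
      K < ((Finset.Ioc X (X + 2 * X.sqrt)).filter (fun y => f y = c)).card) ∧
    (∀ X K : ℕ, 10 ^ 324 * (K + 1) ^ 48 ≤ X → ∀ j : ℕ, j < 2 →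
      K < ((Finset.Ioc X (X + 2 * X.sqrt)).filter
        (fun y => ArithmeticFunction.cardFactors y % 2 = j)).card) ∧
    (∀ j : ℕ, j < 2 → StrictMono (q j) ∧
      ∀ K i : ℕ, 10 ^ 324 * (K + 1) ^ 48 ≤ q j i →
        Real.sqrt (q j (i + K + 1)) - Real.sqrt (q j i) < 1) := by
  have h2 : ∀ X K : ℕ, 10 ^ 324 * (K + 1) ^ 48 ≤ X → ∀ j : ℕ, j < 2 →
      K < ((Finset.Ioc X (X + 2 * X.sqrt)).filter
        (fun y => ArithmeticFunction.cardFactors y % 2 = j)).card := by
    intro X K hX j hj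
    rw [← lam_filter _ j hj]
    exact count_coreX lam lam_CM X K hX _ (neg_one_pow_eq_or ℤ j)
  refine ⟨fun f hf X K hX c hc => count_coreX f hf X K hX c hc, h2, ?_⟩
  intro j hj
  obtain ⟨P, hP⟩ : ∃ P : ℕ → Prop,
      P = fun m => 0 < m ∧ ArithmeticFunction.cardFactors m % 2 = j := ⟨_, rfl⟩
  have hPm : ∀ m, P m ↔ (0 < m ∧ ArithmeticFunction.cardFactors m % 2 = j) := by
    intro m; rw [hP]
  have hq : ∀ i, q j i = Nat.nth P i := by intro i; rw [hP]; rfl
  have hinf : {m | P m}.Infinite := by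
    rw [Set.infinite_iff_exists_gt]
    intro a
    have h3 := h2 (10 ^ 324 * (0 + 1) ^ 48 + a) 0 (Nat.le_add_right _ _) j hj
    obtain ⟨y, hy⟩ := Finset.card_pos.mp (lt_of_le_of_lt (Nat.zero_le _) h3)
    rw [Finset.mem_filter, Finset.mem_Ioc] at hy
    refine ⟨y, ?_, ?_⟩
    · exact (hPm y).mpr ⟨lt_of_le_of_lt (Nat.zero_le _) hy.1.1, hy.2⟩
    · exact lt_of_le_of_lt (Nat.le_add_left _ _) hy.1.1
  refine ⟨?_, ?_⟩
  · intro a b hab
    rw [hq a, hq b]
    exact Nat.nth_strictMono hinf hab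
  intro K i hi
  classical
  rw [hq i] at hi
  obtain ⟨X, hX⟩ : ∃ X, X = Nat.nth P i := ⟨_, rfl⟩
  rw [← hX] at hi
  have hcnt := h2 X K hi j hj
  have hc1 : Nat.count P (X + 1) = i + 1 := by
    rw [hX]; exact Nat.count_nth_succ_of_infinite hinf i
  have hc2 : i + K + 1 < Nat.count P (X + 2 * X.sqrt + 1) := by
    have hsub : ((Finset.range (X + 1)).filter P) ∪ ((Finset.Ioc X (X + 2 * X.sqrt)).filter
        (fun y => ArithmeticFunction.cardFactors y % 2 = j)) ⊆
        (Finset.range (X + 2 * X.sqrt + 1)).filter P := by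
      intro y hy
      rw [Finset.mem_union, Finset.mem_filter, Finset.mem_filter, Finset.mem_range,
        Finset.mem_Ioc] at hy
      rw [Finset.mem_filter, Finset.mem_range]
      rcases hy with ⟨h3, h4⟩ | ⟨h3, h4⟩
      · exact ⟨by omega, h4⟩
      · exact ⟨by omega, (hPm y).mpr ⟨by omega, h4⟩⟩
    have hdis : Disjoint ((Finset.range (X + 1)).filter P)
        ((Finset.Ioc X (X + 2 * X.sqrt)).filter
        (fun y => ArithmeticFunction.cardFactors y % 2 = j)) := by
      rw [Finset.disjoint_left]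
      intro y hy1 hy2
      rw [Finset.mem_filter, Finset.mem_range] at hy1
      rw [Finset.mem_filter, Finset.mem_Ioc] at hy2
      omega
    have h5 := Finset.card_le_card hsub
    rw [Finset.card_union_of_disjoint hdis, ← Nat.count_eq_card_filter_range,
      ← Nat.count_eq_card_filter_range, hc1] at h5
    omega
  have hlt : Nat.nth P (i + K + 1) < X + 2 * X.sqrt + 1 := Nat.nth_lt_of_lt_count hc2
  rw [hq i, hq (i + K + 1), ← hX]
  have hXs : ((X.sqrt : ℕ) : ℝ) ≤ Real.sqrt X := Real.nat_sqrt_le_real_sqrt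
  have hs0 : 0 ≤ Real.sqrt X := Real.sqrt_nonneg _
  have hXX : Real.sqrt X ^ 2 = X := Real.sq_sqrt (Nat.cast_nonneg _)
  have hle : ((Nat.nth P (i + K + 1) : ℕ) : ℝ) ≤ X + 2 * X.sqrt := by
    have : Nat.nth P (i + K + 1) ≤ X + 2 * X.sqrt := by omega
    exact_mod_cast this
  have hfin : Real.sqrt (Nat.nth P (i + K + 1)) < Real.sqrt X + 1 := by
    rw [Real.sqrt_lt' (by linarith)]
    nlinarith
  linarith

end Pool.Agent.Results.MP_82fd4a_nt.ParityAndrica
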